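import Pool.Agent.R423.DL.Tw

/-!
# The functional equation of the L-functions of the twists of cusp forms of level one
-/

set_option autoImplicit false

open UpperHalfPlane hiding I
open Complex Filter Topology MatrixGroups Asymptotics MeasureTheory Set
open scoped Real

namespace Pool.Agent.R423.DL

open Pool.Agent.R423.GC (gs_mul gs_ne)

variable {k : ℤ} (f : CuspForm 𝒮ℒ k) (q : ℕ) [NeZero q] (ψ : DirichletCharacter ℂ q)

lemma Fc_cont {z : ℂ} (hz : 0 < z.im) : ContinuousAt (Fc f) z := by
  have h1 := CuspFormClass.holo f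
  rw [UpperHalfPlane.mdifferentiable_iff] at h1
  exact (h1.differentiableAt (isOpen_upperHalfPlaneSet.mem_nhds hz)).continuousAt

lemma Gt_cont : ContinuousOn (Gt f q ψ) (Ioi 0) := by
  intro y hy
  refine ContinuousAt.continuousWithinAt ?_
  unfold Gt
  refine tendsto_finsetSum _ fun u _ => ?_
  refine ContinuousAt.mul continuousAt_const ?_
  refine ContinuousAt.comp (f := fun y : ℝ => pt q u y) (Fc_cont f (pt_im q u hy)) ?_
  unfold pt
  fun_prop

lemma Fc_decay (r : ℝ) (u : ZMod q) : (fun y : ℝ => Fc f (pt q u y)) =O[atTop] fun y => y ^ r := by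
  have hq : (0 : ℝ) < q := by exact_mod_cast Nat.pos_of_ne_zero (NeZero.ne q)
  have h1 := CuspFormClass.exp_decay_atImInfty f one_pos one_mem_strictPeriods_SL
  have h2 : Tendsto (fun y : ℝ => ofComplex (pt q u y)) atTop atImInfty := by
    rw [atImInfty, tendsto_comap_iff]
    have h3 : Tendsto (fun y : ℝ => y / q) atTop atTop := tendsto_id.atTop_div_const hq
    refine h3.congr' ?_
    filter_upwards [eventually_gt_atTop 0] with y hy
    rw [Function.comp_apply, ofComplex_apply_of_im_pos (pt_im q u hy)]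
    show y / q = (pt q u y).im
    unfold pt
    rw [Complex.div_natCast_im, Complex.add_im, Complex.natCast_im, zero_add]
    simp
  have h4 := h1.comp_tendsto h2
  refine (IsBigO.trans (g := fun y : ℝ => Real.exp (-(2 * π / q) * y)) ?_
    (isLittleO_exp_neg_mul_rpow_atTop (by positivity) r).isBigO)
  refine h4.congr' ?_ ?_
  · filter_upwards with y
    rfl
  · filter_upwards [eventually_gt_atTop 0] with y hy
    rw [Function.comp_apply, ofComplex_apply_of_im_pos (pt_im q u hy)]
    congr 1
    have : (⟨pt q u y, pt_im q u hy⟩ : ℍ).im = y / q := by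
      show (pt q u y).im = y / q
      unfold pt
      rw [Complex.div_natCast_im, Complex.add_im, Complex.natCast_im, zero_add]
      simp
    rw [this]
    field_simp

lemma Gt_decay (r : ℝ) : (Gt f q ψ) =O[atTop] fun y => y ^ r := by
  have h := IsBigO.sum (s := (Finset.univ : Finset (ZMod q))) (fun u _ =>
    (Fc_decay f q r u).const_mul_left (ψ u))
  refine h.congr_left fun y => ?_
  rw [Finset.sum_apply]
  rfl

/-- the pair -/
noncomputable def pair (hk : 0 < k) (hr : ψ⁻¹ = ψ) : WeakFEPair ℂ where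
  f := Gt f q ψ
  g := Gt f q ψ
  k := k
  hk := by exact_mod_cast hk
  ε := ψ (-1) * I ^ k
  hε := by
    refine mul_ne_zero ?_ (zpow_ne_zero _ I_ne_zero)
    intro h
    have h1 : ψ (-1) * ψ (-1) = 1 := by rw [← map_mul]; norm_num
    rw [h, mul_zero] at h1
    exact zero_ne_one h1
  f₀ := 0
  g₀ := 0
  hf_int := (Gt_cont f q ψ).locallyIntegrableOn measurableSet_Ioi
  hg_int := (Gt_cont f q ψ).locallyIntegrableOn measurableSet_Ioi
  h_feq x hx := by
    rw [Gt_inv f q ψ hr hx, smul_eq_mul, mul_zpow, Real.rpow_intCast]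
    push_cast
    ring
  hf_top r := by simpa using Gt_decay f q ψ r
  hg_top r := by simpa using Gt_decay f q ψ r

lemma strong (hk : 0 < k) (hr : ψ⁻¹ = ψ) : IsStrongFEPair (pair f q ψ hk hr) where
  hf₀ := rfl
  hg₀ := rfl

/-- **vanishing of the completed function at the centre** -/
lemma Λ_center (hk : 0 < k) (hr : ψ⁻¹ = ψ) (hs : ψ (-1) * I ^ k = -1) :
    mellin (Gt f q ψ) ((k : ℂ) / 2) = 0 := by
  have h1 := (pair f q ψ hk hr).functional_equation ((k : ℂ) / 2)
  have h2 := (strong f q ψ hk hr).Λ_eq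
  have h3 := (strong f q ψ hk hr).symm.Λ_eq
  have e1 : (((pair f q ψ hk hr).k : ℝ) : ℂ) - (k : ℂ) / 2 = (k : ℂ) / 2 := by
    have : ((pair f q ψ hk hr).k) = (k : ℝ) := rfl
    rw [this]
    push_cast
    ring
  have e2 : (pair f q ψ hk hr).ε = -1 := hs
  have e3 : (pair f q ψ hk hr).f = Gt f q ψ := rfl
  have e4 : (pair f q ψ hk hr).symm.f = Gt f q ψ := rfl
  rw [e1, e2, h2, h3, e3, e4, smul_eq_mul] at h1
  linear_combination (1 / 2 : ℂ) * h1

lemma differentiable_mellin (hk : 0 < k) (hr : ψ⁻¹ = ψ) : Differentiable ℂ (mellin (Gt f q ψ)) := by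
  have h1 := (strong f q ψ hk hr).differentiable_Λ
  rw [(strong f q ψ hk hr).Λ_eq] at h1
  exact h1

end Pool.Agent.R423.DL

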