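import Pool.Agent.R423.DL.Fe

/-!
# The L-functions of the twists of cusp forms of level one
-/

set_option autoImplicit false

open UpperHalfPlane hiding I
open Complex Filter Topology MatrixGroups Asymptotics MeasureTheory Set
open scoped Real

namespace Pool.Agent.R423.DL

open Pool.Agent.R423.GC (gs_mul gs_ne)

section

variable {k : ℤ} (f : CuspForm 𝒮ℒ k)

lemma co_bigO : (fun n : ℕ => co f n) =O[atTop] fun n : ℕ => (n : ℝ) ^ ((k : ℝ) / 2) := by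
  have h := CuspFormClass.qExpansion_isBigO f
  rw [Subgroup.strictWidthInfty_SL2Z] at h
  exact h

lemma co_zero : co f 0 = 0 := CuspFormClass.qExpansion_coeff_zero f one_pos one_mem_strictPeriods_SL

end

section

variable {k : ℤ} (f : CuspForm 𝒮ℒ k) (q : ℕ) [NeZero q] (ψ : DirichletCharacter ℂ q)

lemma summ (g : ℂ) {σ : ℝ} (hσ : (k : ℝ) / 2 + 1 < σ) :
    Summable fun n : ℕ => ‖g * (ψ (n : ZMod q) * co f n)‖ / (2 * (n : ℝ) / q) ^ σ := by
  have hq : (0 : ℝ) < q := by exact_mod_cast Nat.pos_of_ne_zero (NeZero.ne q)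
  apply summable_of_isBigO_nat (Real.summable_nat_rpow.mpr
    (show (k : ℝ) / 2 - σ < -1 by linarith))
  have h1 : (fun n : ℕ => ‖g * (ψ (n : ZMod q) * co f n)‖) =O[atTop]
      fun n : ℕ => (n : ℝ) ^ ((k : ℝ) / 2) := by
    refine (IsBigO.trans (g := fun n : ℕ => co f n) ?_ (co_bigO f))
    refine IsBigO.of_bound ‖g‖ (Eventually.of_forall fun n => ?_)
    rw [norm_norm, norm_mul, norm_mul]
    have := DirichletCharacter.norm_le_one ψ (n : ZMod q)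
    calc ‖g‖ * (‖ψ (n : ZMod q)‖ * ‖co f n‖) ≤ ‖g‖ * (1 * ‖co f n‖) := by gcongr
      _ = ‖g‖ * ‖co f n‖ := by rw [one_mul]
  have h2 : (fun n : ℕ => ((2 * (n : ℝ) / q) ^ σ)⁻¹) =O[atTop] fun n : ℕ => ((n : ℝ) ^ σ)⁻¹ := by
    refine IsBigO.of_bound ((2 / q : ℝ) ^ σ)⁻¹ (Eventually.of_forall fun n => ?_)
    have h3 : (2 * (n : ℝ) / q) = (2 / q) * n := by ring
    rw [h3, Real.mul_rpow (by positivity) (Nat.cast_nonneg n), mul_inv, norm_mul]
    rw [Real.norm_of_nonneg (by positivity : (0 : ℝ) ≤ ((2 / q : ℝ) ^ σ)⁻¹)]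
  have h4 := h1.mul h2
  refine h4.congr' ?_ ?_
  · exact Eventually.of_forall fun n => (div_eq_mul_inv _ _).symm
  · filter_upwards [eventually_gt_atTop 0] with n hn
    have hn' : (0 : ℝ) < n := by exact_mod_cast hn
    rw [← Real.rpow_neg hn'.le, ← Real.rpow_add hn']
    rfl

lemma hasSum_mellin_Gt (hψ : ψ.IsPrimitive) (hr : ψ⁻¹ = ψ) {s : ℂ} (hk : 0 < k)
    (hs : (k : ℝ) / 2 + 1 < s.re) :
    HasSum (fun n : ℕ => (π : ℂ) ^ (-s) * Gamma s *
      (gaussSum ψ ZMod.stdAddChar * (ψ (n : ZMod q) * co f n)) / ((2 * (n : ℝ) / q : ℝ) : ℂ) ^ s)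
      (mellin (Gt f q ψ) s) := by
  have hq : (0 : ℝ) < q := by exact_mod_cast Nat.pos_of_ne_zero (NeZero.ne q)
  have hkr : (0 : ℝ) < k := by exact_mod_cast hk
  refine hasSum_mellin_pi_mul (fun n => ?_) (by linarith) (fun t ht => ?_) (summ f q ψ _ hs)
  · rcases Nat.eq_zero_or_pos n with rfl | hn
    · left
      rw [co_zero, mul_zero, mul_zero]
    · right
      have : (0 : ℝ) < n := by exact_mod_cast hn
      positivity
  · have h1 := hasSum_Gt f q ψ hψ hr ht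
    refine h1.congr_fun ?_
    intro n
    rw [mul_assoc (gaussSum ψ ZMod.stdAddChar)]

/-- the L-function of the twist, in the analytic normalisation -/
noncomputable def Ltw (s : ℂ) : ℂ :=
  (gaussSum ψ ZMod.stdAddChar)⁻¹ * mellin (Gt f q ψ) (s + (k - 1) / 2) *
    ((π : ℂ) ^ (s + (k - 1) / 2) * ((2 / q : ℝ) : ℂ) ^ (s + (k - 1) / 2)) *
      (Gamma (s + (k - 1) / 2))⁻¹

lemma Ltw_diff (hk : 0 < k) (hr : ψ⁻¹ = ψ) : Differentiable ℂ (Ltw f q ψ) := by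
  have hq : (0 : ℝ) < q := by exact_mod_cast Nat.pos_of_ne_zero (NeZero.ne q)
  have h0 : Differentiable ℂ fun s : ℂ => s + ((k : ℂ) - 1) / 2 := by fun_prop
  have h1 := (differentiable_mellin f q ψ hk hr).comp h0
  have h2 : Differentiable ℂ fun s : ℂ => (π : ℂ) ^ (s + ((k : ℂ) - 1) / 2) := by
    intro s
    exact (h0 s).const_cpow (Or.inl (by exact_mod_cast Real.pi_ne_zero))
  have h3 : Differentiable ℂ fun s : ℂ => ((2 / q : ℝ) : ℂ) ^ (s + ((k : ℂ) - 1) / 2) := by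
    intro s
    refine (h0 s).const_cpow (Or.inl ?_)
    have : (0 : ℝ) < 2 / q := by positivity
    exact_mod_cast this.ne'
  have h4 : Differentiable ℂ fun s : ℂ => (Gamma (s + ((k : ℂ) - 1) / 2))⁻¹ :=
    differentiable_one_div_Gamma.comp h0
  exact ((h1.const_mul _).mul (h2.mul h3)).mul h4

lemma Ltw_hasSum (hψ : ψ.IsPrimitive) (hr : ψ⁻¹ = ψ) (hk : 0 < k) {s : ℂ} (hs : 3 / 2 < s.re) :
    HasSum (fun n : ℕ => ψ (n : ZMod q) * (qExpansion 1 f).coeff n *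
      (n : ℂ) ^ (-(s + (k - 1) / 2))) (Ltw f q ψ s) := by
  have hq : (0 : ℝ) < q := by exact_mod_cast Nat.pos_of_ne_zero (NeZero.ne q)
  have hkr : (0 : ℝ) < k := by exact_mod_cast hk
  set w : ℂ := s + ((k : ℂ) - 1) / 2 with hw
  have hwre : w.re = s.re + ((k : ℝ) - 1) / 2 := by
    have : ((k : ℂ) - 1) / 2 = ((((k : ℝ) - 1) / 2 : ℝ) : ℂ) := by push_cast; rfl
    rw [hw, this, Complex.add_re, Complex.ofReal_re]
  have hw1 : (k : ℝ) / 2 + 1 < w.re := by rw [hwre]; linarith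
  have h1 := hasSum_mellin_Gt f q ψ hψ hr hk hw1
  have hg := gs_ne hψ hr
  have hΓ : Gamma w ≠ 0 := Gamma_ne_zero_of_re_pos (by linarith)
  have h2 := (h1.mul_left ((gaussSum ψ ZMod.stdAddChar)⁻¹)).mul_right
    (((π : ℂ) ^ w * ((2 / q : ℝ) : ℂ) ^ w) * (Gamma w)⁻¹)
  have h3 : (gaussSum ψ ZMod.stdAddChar)⁻¹ * mellin (Gt f q ψ) w *
      (((π : ℂ) ^ w * ((2 / q : ℝ) : ℂ) ^ w) * (Gamma w)⁻¹) = Ltw f q ψ s := by
    unfold Ltw
    rw [← hw]
    ring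
  rw [h3] at h2
  refine h2.congr_fun ?_
  intro n
  rcases Nat.eq_zero_or_pos n with rfl | hn
  · have h0 : (qExpansion 1 f).coeff 0 = 0 := co_zero f
    rw [h0, co_zero]
    simp
  have hn' : (0 : ℝ) < n := by exact_mod_cast hn
  have hn'' : (n : ℂ) ≠ 0 := by exact_mod_cast hn.ne'
  have hπ : (π : ℂ) ≠ 0 := by exact_mod_cast Real.pi_ne_zero
  have h5 : ((2 * (n : ℝ) / q : ℝ) : ℂ) ^ w = ((2 / q : ℝ) : ℂ) ^ w * (n : ℂ) ^ w := by
    have h6 : (2 * (n : ℝ) / q) = (2 / q) * n := by ring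
    rw [h6, Complex.ofReal_mul, Complex.mul_cpow_ofReal_nonneg (by positivity) hn'.le,
      Complex.ofReal_natCast]
  have h7 : ((2 / q : ℝ) : ℂ) ^ w ≠ 0 := by
    rw [Ne, Complex.cpow_eq_zero_iff, not_and_or]
    left
    have : (0 : ℝ) < 2 / q := by positivity
    exact_mod_cast this.ne'
  have h8 : (π : ℂ) ^ w ≠ 0 := by
    rw [Ne, Complex.cpow_eq_zero_iff, not_and_or]
    exact Or.inl hπ
  have h9 : (n : ℂ) ^ w ≠ 0 := by
    rw [Ne, Complex.cpow_eq_zero_iff, not_and_or]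
    exact Or.inl hn''
  show ψ (n : ZMod q) * co f n * (n : ℂ) ^ (-w) = _
  rw [h5, Complex.cpow_neg, Complex.cpow_neg]
  field_simp

lemma Ltw_center (hk : 0 < k) (hr : ψ⁻¹ = ψ) (hs : ψ (-1) * I ^ k = -1) :
    Ltw f q ψ (1 / 2) = 0 := by
  unfold Ltw
  have : (1 / 2 : ℂ) + ((k : ℂ) - 1) / 2 = (k : ℂ) / 2 := by ring
  rw [this, Λ_center f q ψ hk hr hs]
  ring

end

end Pool.Agent.R423.DL
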