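import Pool.Agent.R423.GC.Gau3

/-!
# Twists of cusp forms of level one by real characters
-/

set_option autoImplicit false

open UpperHalfPlane hiding I
open Complex Filter Topology MatrixGroups Asymptotics MeasureTheory Set
open scoped Real

namespace Pool.Agent.R423.DL

open Pool.Agent.R423.GC (gs_mul gs_ne)

variable {k : ℤ} (f : CuspForm 𝒮ℒ k)

/-- the coefficients -/
noncomputable def co (n : ℕ) : ℂ := (qExpansion 1 f).coeff n

/-- the function on the complex plane -/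
noncomputable def Fc (z : ℂ) : ℂ := f (ofComplex z)

lemma Fc_coe (τ : ℍ) : Fc f (τ : ℂ) = f τ := by
  unfold Fc
  rw [ofComplex_apply]

lemma Fc_add_one (z : ℂ) : Fc f (z + 1) = Fc f z := by
  have h := SlashInvariantFormClass.periodic_comp_ofComplex f one_mem_strictPeriods_SL z
  simpa [Fc] using h

lemma Fc_add_int (z : ℂ) (n : ℤ) : Fc f (z + n) = Fc f z := by
  have h : Function.Periodic (Fc f) 1 := Fc_add_one f
  have := h.int_mul n z
  rwa [mul_one] at this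

lemma hasSum_Fc {z : ℂ} (hz : 0 < z.im) :
    HasSum (fun n : ℕ => co f n * Complex.exp (2 * π * I * n * z)) (Fc f z) := by
  have h := ModularForm.hasSum_qExpansion f one_pos one_mem_strictPeriods_SL (⟨z, hz⟩ : ℍ)
  have h2 : f (⟨z, hz⟩ : ℍ) = Fc f z := by
    rw [← Fc_coe]
  rw [h2] at h
  have h3 : (fun m : ℕ => (qExpansion 1 f).coeff m *
      Function.Periodic.qParam 1 (((⟨z, hz⟩ : ℍ) : ℂ)) ^ m) =
      fun n : ℕ => co f n * Complex.exp (2 * π * I * n * z) := by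
    funext n
    rw [Function.Periodic.qParam, ← Complex.exp_nat_mul]
    unfold co
    congr 2
    have : (((⟨z, hz⟩ : ℍ)) : ℂ) = z := rfl
    rw [this]
    push_cast
    ring
  rw [h3] at h
  exact h

/-- the transformation law -/
lemma Fc_slash {a b c d : ℤ} (h : a * d - b * c = 1) {z : ℂ} (hz : 0 < z.im) :
    Fc f ((a * z + b) / (c * z + d)) = (c * z + d) ^ k * Fc f z := by
  set γ : SL(2, ℤ) := ⟨!![a, b; c, d], by rw [Matrix.det_fin_two_of]; exact h⟩ with hγ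
  have h1 := SlashInvariantForm.slash_action_eqn' (Γ := 𝒮ℒ) f (γ := Matrix.SpecialLinearGroup.mapGL ℝ γ)
    ⟨γ, rfl⟩ (⟨z, hz⟩ : ℍ)
  have h2 : f (⟨z, hz⟩ : ℍ) = Fc f z := by rw [← Fc_coe]
  rw [h2, ← Fc_coe] at h1
  have h3 : (((Matrix.SpecialLinearGroup.mapGL ℝ γ) • (⟨z, hz⟩ : ℍ) : ℍ) : ℂ) =
      (a * z + b) / (c * z + d) := by
    have h4 := UpperHalfPlane.coe_specialLinearGroup_apply γ (⟨z, hz⟩ : ℍ)
    have h5 : (Matrix.SpecialLinearGroup.mapGL ℝ γ) • (⟨z, hz⟩ : ℍ) = γ • (⟨z, hz⟩ : ℍ) := rfl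
    rw [h5, h4, hγ]
    simp
  rw [h3] at h1
  rw [h1]
  congr 2

/-! ## the twist -/

section

variable (q : ℕ) [NeZero q] (ψ : DirichletCharacter ℂ q)

/-- the point `(u + i y) / q` -/
noncomputable def pt (u : ZMod q) (y : ℝ) : ℂ := ((u.val : ℂ) + I * y) / q

lemma pt_im (u : ZMod q) {y : ℝ} (hy : 0 < y) : 0 < (pt q u y).im := by
  have hq : (0 : ℝ) < q := by exact_mod_cast Nat.pos_of_ne_zero (NeZero.ne q)
  unfold pt
  rw [Complex.div_natCast_im]
  refine div_pos ?_ hq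
  rw [Complex.add_im, Complex.natCast_im, zero_add]
  simpa using hy

/-- the twisted function on the half line -/
noncomputable def Gt (y : ℝ) : ℂ := ∑ u : ZMod q, ψ u * Fc f (pt q u y)

lemma exp_pt (n : ℕ) (u : ZMod q) (y : ℝ) :
    Complex.exp (2 * π * I * n * pt q u y) =
      ZMod.stdAddChar ((n : ZMod q) * u) * (Real.exp (-π * (2 * n / q) * y) : ℝ) := by
  have hq : (q : ℂ) ≠ 0 := by exact_mod_cast NeZero.ne q
  have h1 : ((n : ZMod q) * u) = (((n * u.val : ℕ) : ℤ) : ZMod q) := by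
    push_cast
    rw [ZMod.natCast_zmod_val]
  rw [h1, ZMod.stdAddChar_coe, Complex.ofReal_exp, ← Complex.exp_add]
  congr 1
  unfold pt
  push_cast
  field_simp
  linear_combination ((n : ℂ) * y) * I_sq

lemma hasSum_Gt (hψ : ψ.IsPrimitive) (hr : ψ⁻¹ = ψ) {y : ℝ} (hy : 0 < y) :
    HasSum (fun n : ℕ => gaussSum ψ ZMod.stdAddChar *
      ((ψ (n : ZMod q) * co f n) * (Real.exp (-π * (2 * n / q) * y) : ℝ))) (Gt f q ψ y) := by
  have h : HasSum (fun n : ℕ => ∑ u : ZMod q, ψ u * (co f n * Complex.exp (2 * π * I * n * pt q u y)))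
      (Gt f q ψ y) :=
    hasSum_sum fun u _ => (hasSum_Fc f (pt_im q u hy)).mul_left (ψ u)
  refine h.congr_fun ?_
  intro n
  simp_rw [exp_pt]
  rw [← mul_assoc, ← mul_assoc, mul_comm (gaussSum ψ ZMod.stdAddChar), gs_mul hψ hr, Finset.sum_mul,
    Finset.sum_mul]
  refine Finset.sum_congr rfl fun u _ => ?_
  ring

/-- the functional equation of the twist -/
lemma Gt_inv {y : ℝ} (hr : ψ⁻¹ = ψ) (hy : 0 < y) :
    Gt f q ψ (1 / y) = ψ (-1) * (I * y) ^ k * Gt f q ψ y := by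
  have hq : (q : ℂ) ≠ 0 := by exact_mod_cast NeZero.ne q
  have hyc : (y : ℂ) ≠ 0 := by exact_mod_cast hy.ne'
  have hu0 : ∀ F : ZMod q → ℂ, ∑ u : ZMod q, ψ u * F u = ∑ u : (ZMod q)ˣ, ψ u * F u := fun F =>
    Pool.Agent.R423.GC.sum_units _ fun m hm => by rw [ψ.map_nonunit hm, zero_mul]
  unfold Gt
  rw [hu0, hu0, Finset.mul_sum]
  rw [← Equiv.sum_comp (((Equiv.inv (ZMod q)ˣ).trans (Equiv.mulLeft (-1 : (ZMod q)ˣ))))
    (fun u : (ZMod q)ˣ => ψ (-1) * (I * y) ^ k * (ψ (u : ZMod q) * Fc f (pt q u y)))]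
  refine Finset.sum_congr rfl fun u _ => ?_
  set v : (ZMod q)ˣ := ((Equiv.inv (ZMod q)ˣ).trans (Equiv.mulLeft (-1 : (ZMod q)ˣ))) u with hv
  have hv1 : v = -1 * u⁻¹ := rfl
  have hψv : ψ (v : ZMod q) = ψ (-1) * ψ (u : ZMod q) := by
    rw [hv1, Units.val_mul, map_mul, Units.val_neg, Units.val_one]
    congr 1
    have h1 : ψ⁻¹ (u : ZMod q) = ψ ((u⁻¹ : (ZMod q)ˣ) : ZMod q) := by
      rw [MulChar.inv_apply, Ring.inverse_unit]
    rw [← h1, hr]
  have hψ1 : ψ (-1) * ψ (-1) = 1 := by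
    rw [← map_mul]
    norm_num
  rw [hψv]
  have huv : (((u : ZMod q).val : ℤ) * ((v : ZMod q).val : ℤ) + 1 : ZMod q) = 0 := by
    push_cast
    rw [ZMod.natCast_zmod_val, ZMod.natCast_zmod_val, hv1]
    push_cast
    have : (u : ZMod q) * ((u⁻¹ : (ZMod q)ˣ) : ZMod q) = 1 := u.mul_inv
    linear_combination (-1 : ZMod q) * this
  have huv' : (q : ℤ) ∣ ((u : ZMod q).val : ℤ) * ((v : ZMod q).val : ℤ) + 1 := by
    rw [← ZMod.intCast_zmod_eq_zero_iff_dvd]
    push_cast at huv ⊢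
    exact huv
  obtain ⟨m, hm⟩ := huv'
  have hdet : ((u : ZMod q).val : ℤ) * (-((v : ZMod q).val : ℤ)) - (-m) * (q : ℤ) = 1 := by
    linear_combination -hm
  have hsl := Fc_slash f hdet (pt_im q (v : ZMod q) hy)
  have hm' := congrArg (fun n : ℤ => (n : ℂ)) hm
  push_cast at hm'
  have hden : ((q : ℤ) : ℂ) * pt q (v : ZMod q) y + ((-((v : ZMod q).val : ℤ) : ℤ) : ℂ) = I * y := by
    unfold pt
    push_cast
    field_simp
    ring
  have hnum : (((((u : ZMod q).val : ℤ) : ℤ) : ℂ) * pt q (v : ZMod q) y + (((-m : ℤ)) : ℂ)) /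
      (I * y) = pt q (u : ZMod q) (1 / y) := by
    unfold pt
    push_cast
    have hI : I ≠ 0 := I_ne_zero
    field_simp
    linear_combination hm' - I_sq
  rw [hden, hnum] at hsl
  rw [hsl]
  linear_combination (-(I * y) ^ k * ψ (u : ZMod q) * Fc f (pt q (v : ZMod q) y)) * hψ1

end

end Pool.Agent.R423.DL
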